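import Pool.Agent.Y517.NT.Sys
import Pool.Agent.Y925.SY.Planar

/-!
# Project NT, piece TWO: null sets of the plane
-/

set_option autoImplicit false

open Set Filter Topology MeasureTheory Metric
open scoped Manifold ContDiff

noncomputable section

namespace Pool.Agent.Y961.NT

open Pool.Agent.Y517.NT

/-- smooth functions which converge to the indicator function of a compact set -/
theorem approx (P : Set (ℝ × ℝ)) (hP : IsCompact P) :
    ∃ (R : ℝ) (u : ℕ → ℝ × ℝ → ℝ), 0 < R ∧ (∀ n, ContDiff ℝ ∞ (u n)) ∧ (∀ n x, 0 ≤ u n x) ∧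
      (∀ n x, u n x ≤ 1) ∧ (∀ n x, R ≤ ‖x‖ → u n x = 0) ∧
      ∀ x, Tendsto (fun n => u n x) atTop (𝓝 (P.indicator (fun _ => (1 : ℝ)) x)) := by
  obtain ⟨R, hR, hPR⟩ := hP.isBounded.subset_ball_lt 0 (0 : ℝ × ℝ)
  have hopen : ∀ n : ℕ, IsOpen (thickening (1 / ((n : ℝ) + 1)) P ∩ ball (0 : ℝ × ℝ) R) :=
    fun n => isOpen_thickening.inter isOpen_ball
  have h := fun n : ℕ => exists_contMDiffMap_zero_one_of_isClosed 𝓘(ℝ, ℝ × ℝ) (n := (⊤ : ℕ∞))
    (s := (thickening (1 / ((n : ℝ) + 1)) P ∩ ball (0 : ℝ × ℝ) R)ᶜ) (t := P)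
    (hopen n).isClosed_compl hP.isClosed (by
      rw [Set.disjoint_left]
      intro x hx hxK
      exact hx ⟨self_subset_thickening (by positivity) P hxK, hPR hxK⟩)
  choose f hf0 hf1 hf using h
  refine ⟨R, fun n => f n, hR, fun n => (f n).contMDiff.contDiff, fun n x => (hf n x).1,
    fun n x => (hf n x).2, ?_, ?_⟩
  · intro n x hx
    apply hf0 n
    rintro ⟨-, h⟩
    rw [mem_ball_zero_iff] at h
    linarith
  · intro x
    by_cases hx : x ∈ P
    · rw [indicator_of_mem hx]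
      have h1 : (fun n => f n x) = fun _ => 1 := by
        ext n
        exact hf1 n hx
      rw [h1]
      exact tendsto_const_nhds
    · rw [indicator_of_notMem hx]
      obtain ⟨δ, hδ, hδP⟩ := Metric.isOpen_iff.1 hP.isClosed.isOpen_compl x hx
      obtain ⟨N, hN⟩ := exists_nat_one_div_lt hδ
      refine tendsto_const_nhds.congr' ?_
      filter_upwards [eventually_ge_atTop N] with n hn
      symm
      apply hf0 n
      rintro ⟨h1, -⟩
      obtain ⟨z, hz, hxz⟩ := mem_thickening_iff.1 h1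
      have h2 : (1 : ℝ) / ((n : ℝ) + 1) ≤ 1 / ((N : ℝ) + 1) := Nat.one_div_le_one_div hn
      have h3 : z ∈ ball x δ := by
        rw [mem_ball, dist_comm]
        linarith
      exact hδP h3 hz

/-- boundedness on compact spaces -/
theorem bdd {K : Type} [TopologicalSpace K] [CompactSpace K] (F : K → ℝ) (hF : Continuous F) :
    ∃ C : ℝ, 0 ≤ C ∧ ∀ z, |F z| ≤ C := by
  obtain ⟨C, hC⟩ := isCompact_univ.exists_bound_of_continuousOn hF.continuousOn
  refine ⟨max C 0, le_max_right _ _, fun z => ?_⟩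
  exact (hC z (mem_univ z)).trans (le_max_left _ _)

/-- derivatives of a composition -/
theorem fderiv_pair (Q : ℝ × ℝ → ℝ) (z : ℝ × ℝ) (a b : ℝ) :
    fderiv ℝ Q z (a, b) = a * fderiv ℝ Q z (1, 0) + b * fderiv ℝ Q z (0, 1) := by
  have h : ((a, b) : ℝ × ℝ) = a • ((1, 0) : ℝ × ℝ) + b • ((0, 1) : ℝ × ℝ) := by
    ext <;> simp
  rw [h, map_add, map_smul, map_smul, smul_eq_mul, smul_eq_mul]

theorem fderiv_mul2 (z : ℝ × ℝ) (a b : ℝ) :
    fderiv ℝ (fun q : ℝ × ℝ => q.1 * q.2) z (a, b) = z.1 * b + z.2 * a := by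
  have h : HasFDerivAt (fun q : ℝ × ℝ => q.1 * q.2)
      (z.1 • ContinuousLinearMap.snd ℝ ℝ ℝ + z.2 • ContinuousLinearMap.fst ℝ ℝ ℝ) z :=
    hasFDerivAt_fst.mul hasFDerivAt_snd
  rw [h.fderiv]
  simp

/-- the bracket of a product with a primitive -/
theorem br_w {X K : Type} [TopologicalSpace X] [TopologicalSpace K] (s : Sys X K)
    (Q v : ℝ × ℝ → ℝ) (hQ : ContDiff ℝ ∞ Q) (hv : ∀ z, fderiv ℝ Q z (0, 1) = v z)
    (χ f g : X → ℝ) (hχ : χ ∈ s.S) (hf : f ∈ s.S) (hg : g ∈ s.S) :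
    (fun x => χ x * Q (g x, f x)) ∈ s.S ∧
    ∀ z, s.br (fun x => χ x * Q (g x, f x)) g z =
      Q (g (s.p z), f (s.p z)) * s.br χ g z +
        χ (s.p z) * v (g (s.p z), f (s.p z)) * s.br f g z := by
  have hm : ContDiff ℝ ∞ (fun q : ℝ × ℝ => q.1 * q.2) := contDiff_fst.mul contDiff_snd
  have h1 : (fun x => Q (g x, f x)) ∈ s.S := s.comp Q hQ g hg f hf
  refine ⟨s.comp (fun q => q.1 * q.2) hm χ hχ _ h1, fun z => ?_⟩
  have h2 := s.D_comp Q hQ g hg f hf z
  have h2' := s.D'_comp Q hQ g hg f hf z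
  have h3 := s.D_comp (fun q => q.1 * q.2) hm χ hχ _ h1 z
  have h3' := s.D'_comp (fun q => q.1 * q.2) hm χ hχ _ h1 z
  rw [fderiv_pair, hv] at h2 h2'
  rw [fderiv_mul2, h2] at h3
  rw [fderiv_mul2, h2'] at h3'
  unfold Sys.br
  simp only at h3 h3' ⊢
  rw [h3, h3']
  ring

/-- **TWO.** -/
theorem t_TWO (hZ : S_ZONE) : S_TWO := by
  intro X K _ _ _ _ _ _ _ _ s μ _ hCl P hP hP0 χ hχ f hf g hg
  -- the transposed set
  obtain ⟨P', hP'⟩ : ∃ P' : Set (ℝ × ℝ), P' = Prod.swap '' P := ⟨_, rfl⟩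
  have hmem : ∀ a b, (b, a) ∈ P' ↔ (a, b) ∈ P := by
    intro a b
    rw [hP']
    constructor
    · rintro ⟨q, hq, h⟩
      have : q = (a, b) := by
        rw [← Prod.swap_swap q, h]
        rfl
      rwa [← this]
    · intro h
      exact ⟨_, h, rfl⟩
  have hP'c : IsCompact P' := by
    rw [hP']
    exact hP.image continuous_swap
  have hP'0 : volume P' = 0 := by
    rw [hP', image_swap_eq_preimage_swap, Measure.volume_eq_prod,
      Measure.measurePreserving_swap.measure_preimage hP.measurableSet.nullMeasurableSet,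
      ← Measure.volume_eq_prod]
    exact hP0
  obtain ⟨R, u, hR, hus, hu0, hu1, huR, hlim⟩ := approx P' hP'c
  -- the primitives
  obtain ⟨Q, hQ⟩ : ∃ Q : ℕ → ℝ × ℝ → ℝ, ∀ n q, Q n q = ∫ t in Iic q.2, u n (q.1, t) :=
    ⟨_, fun _ _ => rfl⟩
  have hQs : ∀ n, ContDiff ℝ ∞ (Q n) := by
    intro n
    have h1 : Q n = fun q : ℝ × ℝ => ∫ t in Iic q.2, u n (q.1, t) := funext (hQ n)
    rw [h1]
    exact Pool.Agent.Y925.SY.Qsmooth (u n) (hus n) R (huR n)
  have hQd : ∀ n z, fderiv ℝ (Q n) z (0, 1) = u n z := by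
    intro n z
    have h1 : HasDerivAt (fun y => Q n (z.1, y)) (u n (z.1, z.2)) z.2 := by
      have h2 : (fun y => Q n (z.1, y)) = fun y => ∫ t in Iic y, u n (z.1, t) := by
        ext y
        rw [hQ]
      rw [h2]
      exact Pool.Agent.Y925.SY.Qderiv (u n) (hus n).continuous R (huR n) z.1 z.2
    have h3 : HasFDerivAt (Q n) (fderiv ℝ (Q n) z) z :=
      ((hQs n).differentiable (by simp) z).hasFDerivAt
    have h4 : HasDerivAt (fun y : ℝ => ((z.1, y) : ℝ × ℝ)) ((0, 1) : ℝ × ℝ) z.2 :=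
      (hasDerivAt_const z.2 z.1).prodMk (hasDerivAt_id z.2)
    have h5 : HasDerivAt (fun y => Q n (z.1, y)) (fderiv ℝ (Q n) z ((0, 1) : ℝ × ℝ)) z.2 :=
      HasFDerivAt.comp_hasDerivAt z.2 (f := fun y : ℝ => ((z.1, y) : ℝ × ℝ)) h3 h4
    exact h5.unique h1
  have hQ0 : ∀ n q, 0 ≤ Q n q := by
    intro n q
    rw [hQ]
    exact integral_nonneg fun t => hu0 n _
  have hQG : ∀ n q, Q n q ≤ ∫ t, u n (q.1, t) := by
    intro n q
    rw [hQ]
    exact setIntegral_le_integral
      (Pool.Agent.Y925.SY.sec_int (u n) (hus n).continuous R (huR n) q.1)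
      (Eventually.of_forall fun t => hu0 n _)
  have hdom : ∀ n (a t : ℝ), u n (a, t) ≤ (Icc (-R) R).indicator (fun _ => (1 : ℝ)) t := by
    intro n a t
    by_cases ht : t ∈ Icc (-R) R
    · rw [indicator_of_mem ht]
      exact hu1 n _
    · rw [indicator_of_notMem ht, huR n _]
      have h2 : R ≤ |t| := by
        by_contra h3
        rw [not_le, abs_lt] at h3
        exact ht ⟨h3.1.le, h3.2.le⟩
      exact h2.trans (le_max_right _ _)
  have hint : Integrable (fun t : ℝ => (Icc (-R) R).indicator (fun _ => (1 : ℝ)) t) := by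
    rw [integrable_indicator_iff measurableSet_Icc]
    exact integrableOn_const (by simp)
  have hGb : ∀ n (a : ℝ), ∫ t, u n (a, t) ≤ 2 * R := by
    intro n a
    refine (integral_mono (Pool.Agent.Y925.SY.sec_int (u n) (hus n).continuous R (huR n) a) hint
      (fun t => hdom n a t)).trans ?_
    rw [integral_indicator measurableSet_Icc, setIntegral_const, smul_eq_mul, mul_one,
      Real.volume_real_Icc]
    exact max_le (by linarith) (by linarith)
  -- the bad values
  obtain ⟨A, hA⟩ : ∃ A : Set ℝ, A = {a | volume (Prod.mk a ⁻¹' P') ≠ 0} := ⟨_, rfl⟩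
  have hAm : MeasurableSet A := by
    rw [hA]
    exact (measurable_measure_prodMk_left (ν := (volume : Measure ℝ)) hP'c.measurableSet
      (measurableSet_singleton 0)).compl
  have hA0 : volume A = 0 := by
    have h1 := (Measure.measure_prod_null (μ := (volume : Measure ℝ))
      (ν := (volume : Measure ℝ)) hP'c.measurableSet).1 (by
        rw [← Measure.volume_eq_prod]
        exact hP'0)
    rw [hA]
    exact h1
  have hGlim : ∀ a, a ∉ A → Tendsto (fun n => ∫ t, u n (a, t)) atTop (𝓝 0) := by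
    intro a ha
    have ha0 : volume (Prod.mk a ⁻¹' P') = 0 := by
      rw [hA] at ha
      exact not_not.1 ha
    have h1 : Tendsto (fun n => ∫ t, u n (a, t)) atTop
        (𝓝 (∫ t, P'.indicator (fun _ => (1 : ℝ)) (a, t))) := by
      refine tendsto_integral_of_dominated_convergence _ (fun n => ?_) hint (fun n => ?_) ?_
      · exact (Pool.Agent.Y925.SY.sec_int (u n) (hus n).continuous R (huR n) a).1
      · refine Eventually.of_forall fun t => ?_
        rw [Real.norm_of_nonneg (hu0 n _)]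
        exact hdom n a t
      · exact Eventually.of_forall fun t => hlim (a, t)
    have h2 : ∫ t, P'.indicator (fun _ => (1 : ℝ)) (a, t) = 0 := by
      apply integral_eq_zero_of_ae
      rw [Filter.EventuallyEq, ae_iff]
      refine measure_mono_null ?_ ha0
      intro t ht
      by_contra h
      exact ht (indicator_of_notMem (show (a, t) ∉ P' from h) _)
    rwa [h2] at h1
  -- the two limits
  have hpc := s.p_cont
  have hfc := (s.S_cont f hf).comp hpc
  have hgc := (s.S_cont g hg).comp hpc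
  have hχc := (s.S_cont χ hχ).comp hpc
  have hbc : ∀ f' ∈ s.S, Continuous (s.br f' g) := by
    intro f' hf'
    exact ((s.D_cont f' hf').mul (s.D'_cont g hg)).sub ((s.D'_cont f' hf').mul (s.D_cont g hg))
  obtain ⟨C1, hC1, hC1b⟩ := bdd _ (hbc χ hχ)
  obtain ⟨C2, hC2, hC2b⟩ := bdd (fun z => χ (s.p z) * s.br f g z) (hχc.mul (hbc f hf))
  have hcm : ∀ F : K → ℝ, Continuous F → AEStronglyMeasurable F μ := fun F hF =>
    hF.aestronglyMeasurable
  have hc1 : ∀ n, Continuous fun z => Q n (g (s.p z), f (s.p z)) * s.br χ g z := fun n =>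
    ((hQs n).continuous.comp (hgc.prodMk hfc)).mul (hbc χ hχ)
  have hc2 : ∀ n, Continuous fun z => χ (s.p z) * u n (g (s.p z), f (s.p z)) * s.br f g z :=
    fun n => (hχc.mul ((hus n).continuous.comp (hgc.prodMk hfc))).mul (hbc f hf)
  have hb1 : ∀ n z, ‖Q n (g (s.p z), f (s.p z)) * s.br χ g z‖ ≤ 2 * R * C1 := by
    intro n z
    rw [norm_mul, Real.norm_of_nonneg (hQ0 n _)]
    exact mul_le_mul ((hQG n _).trans (hGb n _)) (hC1b z) (norm_nonneg _) (by positivity)
  have hb2 : ∀ n z, ‖χ (s.p z) * u n (g (s.p z), f (s.p z)) * s.br f g z‖ ≤ C2 := by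
    intro n z
    have h1 : χ (s.p z) * u n (g (s.p z), f (s.p z)) * s.br f g z =
        u n (g (s.p z), f (s.p z)) * (χ (s.p z) * s.br f g z) := by ring
    rw [h1, norm_mul, Real.norm_of_nonneg (hu0 n _)]
    calc u n (g (s.p z), f (s.p z)) * ‖χ (s.p z) * s.br f g z‖ ≤ 1 * C2 :=
          mul_le_mul (hu1 n _) (hC2b z) (norm_nonneg _) (by norm_num)
      _ = C2 := one_mul _
  have hi1 : ∀ n, Integrable (fun z => Q n (g (s.p z), f (s.p z)) * s.br χ g z) μ := fun n =>
    Integrable.of_bound (hcm _ (hc1 n)) _ (Eventually.of_forall (hb1 n))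
  have hi2 : ∀ n, Integrable (fun z => χ (s.p z) * u n (g (s.p z), f (s.p z)) * s.br f g z) μ :=
    fun n => Integrable.of_bound (hcm _ (hc2 n)) _ (Eventually.of_forall (hb2 n))
  have hsum : ∀ n, ∫ z, Q n (g (s.p z), f (s.p z)) * s.br χ g z ∂μ +
      ∫ z, χ (s.p z) * u n (g (s.p z), f (s.p z)) * s.br f g z ∂μ = 0 := by
    intro n
    obtain ⟨h1, h2⟩ := br_w s (Q n) (u n) (hQs n) (hQd n) χ f g hχ hf hg
    rw [← integral_add (hi1 n) (hi2 n), ← hCl _ h1 g hg]
    exact integral_congr_ae (Eventually.of_forall fun z => (h2 z).symm)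
  have hz := hZ X K s μ hCl A hAm hA0 g hg
  have hlim1 : Tendsto (fun n => ∫ z, Q n (g (s.p z), f (s.p z)) * s.br χ g z ∂μ) atTop
      (𝓝 (∫ _z : K, (0 : ℝ) ∂μ)) := by
    refine tendsto_integral_of_dominated_convergence (fun _ => 2 * R * C1)
      (fun n => hcm _ (hc1 n)) (integrable_const _) (fun n => Eventually.of_forall (hb1 n)) ?_
    have hae : ∀ᵐ z ∂μ, ¬ (g (s.p z) ∈ A ∧ (s.D g z ≠ 0 ∨ s.D' g z ≠ 0)) := by
      rw [ae_iff]
      simp only [not_not]
      exact hz
    filter_upwards [hae] with z hz'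
    by_cases hgA : g (s.p z) ∈ A
    · have h1 : s.D g z = 0 ∧ s.D' g z = 0 := by
        by_contra h
        apply hz'
        refine ⟨hgA, ?_⟩
        by_contra h2
        push Not at h2
        exact h h2
      have h2 : s.br χ g z = 0 := by
        unfold Sys.br
        rw [h1.1, h1.2]
        ring
      rw [h2]
      simp
    · have h1 : Tendsto (fun n => Q n (g (s.p z), f (s.p z))) atTop (𝓝 0) :=
        squeeze_zero (fun n => hQ0 n _) (fun n => hQG n _) (hGlim _ hgA)
      have h2 := h1.mul_const (s.br χ g z)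
      rwa [zero_mul] at h2
  have hlim2 : Tendsto (fun n => ∫ z, χ (s.p z) * u n (g (s.p z), f (s.p z)) * s.br f g z ∂μ)
      atTop (𝓝 (∫ z, χ (s.p z) * P'.indicator (fun _ => (1 : ℝ)) (g (s.p z), f (s.p z)) *
        s.br f g z ∂μ)) := by
    refine tendsto_integral_of_dominated_convergence (fun _ => C2)
      (fun n => hcm _ (hc2 n)) (integrable_const _) (fun n => Eventually.of_forall (hb2 n)) ?_
    exact Eventually.of_forall fun z => ((hlim _).const_mul _).mul_const _
  have hlim3 := hlim1.add hlim2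
  simp only [hsum, integral_zero, zero_add] at hlim3
  have h0 := tendsto_nhds_unique tendsto_const_nhds hlim3
  have hms : MeasurableSet {z | (f (s.p z), g (s.p z)) ∈ P} :=
    (hP.isClosed.preimage (hfc.prodMk hgc)).measurableSet
  rw [← integral_indicator hms]
  refine Eq.trans ?_ h0.symm
  congr 1
  ext z
  by_cases h : (f (s.p z), g (s.p z)) ∈ P
  · rw [indicator_of_mem (show z ∈ {z | (f (s.p z), g (s.p z)) ∈ P} from h),
      indicator_of_mem ((hmem _ _).2 h), mul_one]
  · rw [indicator_of_notMem (show z ∉ {z | (f (s.p z), g (s.p z)) ∈ P} from h),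
      indicator_of_notMem (fun h' => h ((hmem _ _).1 h')), mul_zero, zero_mul]

end Pool.Agent.Y961.NT
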